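import Pool.Agent.X156.SD.Av

/-!
# The parity conjecture for abelian varieties over Galois extensions of even degree

Let `A` be an abelian variety of dimension `g` over a number field `K` (any reduction), `F/K` a finite
Galois extension with group `G`, `S` a set of places of `K` which contains those of bad reduction.
`A` enters by the traces `c_v(k) ∈ ℤ` of the powers of Frobenius on its Tate module, `v ∉ S`, and by
the `G`-module `M = A(F)`, a finitely generated abelian group with `M^H = A(F^H)`.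

Hypotheses (parts of the conjecture of Hasse and Weil):

* for every complex representation `τ` of `G` the `L`-function
  `L_S(A ⊗ τ, s) = exp ∑ c_v(k) τ(v^k) q_v^{-ks} / k` has a meromorphic continuation to `Re s > ρ`
  for a fixed `ρ < 1`;
* for every subgroup `H` the function `L_S(A ⊗ π_H, s) = L_S(A/F^H, s)` (`π_H` the permutation
  character of `G/H`) satisfies, after multiplication with a factor `u` (archimedean factor,
  conductor, Euler factors at `S`) which is analytic and different from zero at `s = 1`, the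
  functional equation `s ↦ 2 - s` with the sign `ε(H) = ± 1`: the root number of `A/F^H`.

Let `H` be a subgroup of `G` with a normal subgroup of odd order and index `2^(n+1)`, for instance
a Sylow `2`-subgroup if `F/K` has even degree, or `H = G` nilpotent of even order; let `J` be the
subgroups of index two of `H`. Then:

1. `ε(1) = ∏ ε(J)` and `(-1)^rk A(F) = ∏ (-1)^rk A(F^J)`;
2. so the parity conjecture for `A` over the fields `F^J` implies the one for `A` over `F`;
3. if `z ∈ G` has order two and is a product of squares, then `ε(1) = ε(⟨z⟩)` and the ranks of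
   `A(F)` and `A(F^z)` have the same parity.
-/

set_option autoImplicit false

open IsDedekindDomain NumberField Module

namespace Pool.Agent.Results.MP_ac3185_nt.ParityOverGaloisExtensions

open Pool.Agent.X298.ST Pool.Agent.X298.EC Pool.Agent.X156.SD

theorem result {K F : Type} [Field K] [NumberField K] [Field F] [NumberField F] [Algebra K F]
    [IsGalois K F] (S : Set (HeightOneSpectrum (𝓞 K))) (P : Places S → Ideal (𝓞 F))
    (_hP : IsAbove P) (g : ℕ) (c : Places S → ℕ → ℤ) (hc : IsTrace g c) (ρ : ℝ) (hρ : ρ < 1)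
    (hΛ : ∀ (n : ℕ) (τ : (F ≃ₐ[K] F) →* Matrix (Fin n) (Fin n) ℂ),
      ∃ Λ, Continues P (fun v k => ((c v k : ℤ) : ℂ)) 1 ρ (fun x => (τ x).trace) Λ)
    (ε : Subgroup (F ≃ₐ[K] F) → ℤ)
    (hε : ∀ H Λ, Continues P (fun v k => ((c v k : ℤ) : ℂ)) 1 ρ (perm H) Λ →
      FunctionalEq Λ (ε H))
    (M : Type) [AddCommGroup M] [Module.Finite ℤ M] [DistribMulAction (F ≃ₐ[K] F) M] :
    (∀ H, ε H = 1 ∨ ε H = -1) ∧
    -- 1, 2
    (∀ H N : Subgroup (F ≃ₐ[K] F), N ≤ H → (N.subgroupOf H).Normal → Odd (Nat.card N) →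
      ∀ n : ℕ, N.relIndex H = 2 ^ (n + 1) →
        ε ⊥ = ∏ J ∈ halves H, ε J ∧
        (-1 : ℤ) ^ (finrank ℤ M) = ∏ J ∈ halves H, (-1 : ℤ) ^ (rkFix M J) ∧
        ((∀ J ∈ halves H, (-1 : ℤ) ^ (rkFix M J) = ε J) → (-1 : ℤ) ^ (finrank ℤ M) = ε ⊥)) ∧
    (Even (finrank K F) → ∀ Q : Sylow 2 (F ≃ₐ[K] F),
      (∀ J ∈ halves (Q : Subgroup (F ≃ₐ[K] F)), (-1 : ℤ) ^ (rkFix M J) = ε J) →
        (-1 : ℤ) ^ (finrank ℤ M) = ε ⊥) ∧
    -- 3
    (∀ z : F ≃ₐ[K] F, z * z = 1 →
      z ∈ Subgroup.closure (Set.range fun x : F ≃ₐ[K] F => x ^ 2) →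
        ε ⊥ = ε (Subgroup.zpowers z) ∧
        (-1 : ℤ) ^ (finrank ℤ M) = (-1 : ℤ) ^ (rkFix M (Subgroup.zpowers z))) := by
  have hfd : FiniteDimensional K F := Module.Finite.of_restrictScalars_finite ℚ K F
  obtain ⟨V, i1, i2, i3, σ, o, hσ, h⟩ := exists_order_gen hρ hc.pure int_real hΛ
  have hs : ∀ H, ε H = (-1) ^ (finrank ℂ (fixS σ H)) := by
    intro H
    obtain ⟨⟨Λ, hL⟩, h2, h3⟩ := h H
    have h4 := h2 Λ hL
    rw [Complex.ofReal_one] at h4
    exact sign_eq h3 ((hε H Λ hL).sign (hL.mero 1 (by rw [Complex.one_re]; exact hρ)) h4)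
  obtain ⟨h1, h2⟩ := signs hσ ε hs M
  refine ⟨fun H => ?_, h1, ?_, h2⟩
  · rw [hs]
    exact neg_one_pow_eq_or ℤ _
  · intro he Q
    obtain ⟨n, hn⟩ := sylow_halves he Q
    have hb : ((⊥ : Subgroup (F ≃ₐ[K] F)).subgroupOf (Q : Subgroup (F ≃ₐ[K] F))).Normal := by
      rw [Subgroup.bot_subgroupOf]
      infer_instance
    exact (h1 Q ⊥ bot_le hb (by rw [Subgroup.card_bot]; exact odd_one) n hn).2.2

end Pool.Agent.Results.MP_ac3185_nt.ParityOverGaloisExtensions
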