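import Mathlib
import Pool.Agent.Y667.OG.Prod
import Pool.Agent.Y388.QK.Deg
import Pool.Agent.W672.FK.Lowf
import Pool.Agent.W307.RT.Tors
import Pool.Agent.X293.GY.Main
import Pool.Agent.X293.CO.Cond

/-!
# The parity conjecture for products of curves over Galois fields and multiquadratic fields

All `g`-tuples of elliptic curves over `ℚ` with full rational 2-torsion, ordered by the naive height, by
the minimal discriminant or by the conductor, `A = E₁ × ... × E_g`. For every `m` and `N` there is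
a finite list of fields `M = ℚ(√(q_1 q'_1), ..., √(q_m q'_m))` of degree `2 ^ m`, all the primes `q_i`,
`q'_i` larger than `N`, and `δ > 0` such that for all large `Z` for some field `M` of the list at least
a proportion `δ` of the tuples of size at most `Z` satisfies: `rk A(M) = 0`, the product of the local
root numbers of `A` over `L` is `1` for EVERY finite Galois extension `L/ℚ` containing two different
quadratic subfields of `M` (in particular if `L` contains `M` and `m ≥ 2`), and the parity conjecture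
holds for `A` over every such `L` whose Galois group has a normal 2-complement (for instance is
nilpotent) and whose quadratic subfields embed in `M`.
-/

set_option autoImplicit false

namespace Pool.Agent.Results.MP_ac3185_nt.ProductsGaloisFields

open Finset Filter Topology NumberField

/-- the curve `y² = x³ + A x + B` over `ℚ` -/
def E (A B : ℤ) : WeierstrassCurve ℚ := ⟨0, 0, 0, (A : ℚ), (B : ℚ)⟩

/-- the absolute value of the minimal discriminant of an elliptic curve `W` over `ℚ`: the smallest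
absolute value of the discriminant of a Weierstrass equation `V` with integer coefficients which is
isomorphic to `W` over `ℚ` -/
noncomputable def minDisc (W : WeierstrassCurve ℚ) : ℕ :=
  sInf {n : ℕ | ∃ (V : WeierstrassCurve ℤ) (C : WeierstrassCurve.VariableChange ℚ),
    C • W = V.map (Int.castRingHom ℚ) ∧ n = V.Δ.natAbs}

/-- the naive height of `y² = x³ + A x + B` is at most `Z` -/
def HeightLe (c : ℤ × ℤ) (Z : ℕ) : Prop := 4 * |c.1| ^ 3 ≤ Z ∧ 27 * c.2 ^ 2 ≤ Z

/-- the minimal discriminant of `y² = x³ + A x + B` is at most `Z` in absolute value -/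
def DiscLe (c : ℤ × ℤ) (Z : ℕ) : Prop := minDisc (E c.1 c.2) ≤ Z

/-- the prime-to-6 part of the conductor of `y² = x³ + A x + B` (there is no prime `p` with `p⁴ ∣ A`
and `p⁶ ∣ B`): the product over the primes `p ≥ 5` dividing `4 A³ + 27 B²` of `p` (multiplicative
reduction: `p ∤ A`) or `p²` (additive reduction: `p ∣ A`) -/
def Cond6 (c : ℤ × ℤ) : ℕ :=
  ∏ p ∈ (Int.natAbs (4 * c.1 ^ 3 + 27 * c.2 ^ 2)).primeFactors.filter (fun p => 5 ≤ p),
    if (p : ℤ) ∣ c.1 then p ^ 2 else p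

/-- the conductor is at most `Z`, where `f c` is the part of the conductor at the primes `2`
and `3` -/
def CondLe (f : ℤ × ℤ → ℕ) (c : ℤ × ℤ) (Z : ℕ) : Prop := f c * Cond6 c ≤ Z

/-- the three orderings: by the naive height, by the minimal discriminant, by the conductor (`f` may
be any function with values between `1` and `2 ^ 8 * 3 ^ 5`; the part of the conductor at the primes
`2` and `3` is such a function) -/
def IsOrdering (I : ℤ × ℤ → ℕ → Prop) : Prop :=
  I = HeightLe ∨ I = DiscLe ∨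
    ∃ f : ℤ × ℤ → ℕ, (∀ c, 1 ≤ f c ∧ f c ≤ 2 ^ 8 * 3 ^ 5) ∧ I = CondLe f

/-- The pairs `(A, B)` of integers such that `4 A³ + 27 B² ≠ 0`, there is no prime `p` with
`p⁴ ∣ A` and `p⁶ ∣ B`, `Z/2 x Z/2` embeds in the group of the rational points of
`y² = x³ + A x + B`, and the size is at most `Z`. Every elliptic curve over `ℚ` with full rational
2-torsion is isomorphic to `E A B` for exactly one pair with the first three properties. -/
def Fam (I : ℤ × ℤ → ℕ → Prop) (Z : ℕ) : Set (ℤ × ℤ) :=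
  {c : ℤ × ℤ | 4 * c.1 ^ 3 + 27 * c.2 ^ 2 ≠ 0 ∧
    (∀ p : ℕ, p.Prime → ¬ ((p : ℤ) ^ 4 ∣ c.1 ∧ (p : ℤ) ^ 6 ∣ c.2)) ∧
    (∃ f : ZMod 2 × ZMod 2 →+ (E c.1 c.2).toAffine.Point, Function.Injective f) ∧ I c Z}

/-- the `g`-tuples of curves of size at most `Z` -/
def Tuples (I : ℤ × ℤ → ℕ → Prop) (g Z : ℕ) : Set (Fin g → ℤ × ℤ) := {c | ∀ i, c i ∈ Fam I Z}

/-- the proportion of the tuples of `S` among the tuples of curves of size at most `Z` -/
noncomputable def proportion (I : ℤ × ℤ → ℕ → Prop) (g : ℕ) (S : Set (Fin g → ℤ × ℤ)) (Z : ℕ) : ℝ :=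
  ((Tuples I g Z ∩ S).ncard : ℝ) / (Tuples I g Z).ncard

lemma FamH_eq (H : ℕ) : Fam HeightLe H = (Pool.Agent.W307.RT.Cv 2 H : Set (ℤ × ℤ)) := by
  classical
  ext c
  have h : Pool.Agent.W307.RT.HasT 2 (Pool.Agent.W307.RT.Sh c.1 c.2) ↔
    ∃ f : ZMod 2 × ZMod 2 →+ (E c.1 c.2).toAffine.Point, Function.Injective f :=
    Pool.Agent.W307.RT.tors_iff
  unfold Fam HeightLe Pool.Agent.W307.RT.Cv
  rw [Set.mem_ofPred_eq, mem_coe, mem_filter, h, mem_product, mem_Icc, mem_Icc]
  constructor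
  · rintro ⟨h1, h2, h3, h4, h5⟩
    refine ⟨⟨?_, ?_⟩, h1, h4, h5, h2, h3⟩
    · rw [← abs_le]
      have h0 := abs_nonneg c.1
      rcases eq_or_lt_of_le h0 with h6 | h6
      · rw [← h6]; positivity
      · have : 1 ≤ |c.1| := h6
        nlinarith [mul_nonneg h0 h0, mul_self_nonneg (|c.1| - 1)]
    · rw [← abs_le]
      have h0 := abs_nonneg c.2
      rw [← sq_abs] at h5
      rcases eq_or_lt_of_le h0 with h6 | h6
      · rw [← h6]; positivity
      · have : 1 ≤ |c.2| := h6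
        nlinarith
  · rintro ⟨-, h1, h4, h5, h2, h3⟩
    exact ⟨h1, h2, h3, h4, h5⟩

lemma FamD_eq (D : ℕ) : Fam DiscLe D = (Pool.Agent.TH344.DS.Dv D : Set (ℤ × ℤ)) := by
  classical
  have h0 : Fam DiscLe D = Pool.Agent.W307.RS.DvS 2 D := by
    ext c
    have h : Pool.Agent.W307.RT.HasT 2 (Pool.Agent.W307.RT.Sh c.1 c.2) ↔
        ∃ f : ZMod 2 × ZMod 2 →+ (E c.1 c.2).toAffine.Point, Function.Injective f :=
      Pool.Agent.W307.RT.tors_iff
    unfold Fam Pool.Agent.W307.RS.DvS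
    rw [Set.mem_ofPred_eq, Set.mem_ofPred_eq, h]
    exact Iff.rfl
  rw [h0]
  unfold Pool.Agent.TH344.DS.Dv
  rw [dif_pos (Pool.Agent.TH344.DS.excd.1 D), Set.Finite.coe_toFinset]

/-- The number of these curves tends to infinity (ordering by height). -/
lemma tendstoH : Tendsto (fun Z : ℕ => (Fam HeightLe Z).ncard) atTop atTop := by
  simp only [FamH_eq, Set.ncard_coe_finset]
  exact Pool.Agent.W307.RT.tendsto_of_low Pool.Agent.W672.FK.lowf

/-- The number of these curves tends to infinity (ordering by the minimal discriminant). -/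
lemma tendstoD : Tendsto (fun Z : ℕ => (Fam DiscLe Z).ncard) atTop atTop := by
  have h1 := Pool.Agent.W307.RT.tendsto_of_low Pool.Agent.W672.FK.lowf
  have h2 : Tendsto (fun D : ℕ => (Pool.Agent.W307.RT.Cv 2 (D / 32)).card) atTop atTop :=
    h1.comp (Nat.tendsto_div_const_atTop (by norm_num))
  obtain ⟨hD1, hD2, hD3⟩ := Pool.Agent.TH344.DS.excd
  refine tendsto_atTop_mono (fun D => ?_) h2
  have h3 : (Pool.Agent.TH344.DS.Dv D : Set (ℤ × ℤ)) = Pool.Agent.W307.RS.DvS 2 D := by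
    unfold Pool.Agent.TH344.DS.Dv
    rw [dif_pos (hD1 D), Set.Finite.coe_toFinset]
  rw [FamD_eq, h3, ← Set.ncard_coe_finset]
  exact Set.ncard_le_ncard (Pool.Agent.W307.RS.Cv_sub Pool.Agent.W554.RS.mdl 2 (D / 32) D
    (Nat.mul_div_le D 32)) (hD1 D)

/-- the property without the size -/
def Pr (c : ℤ × ℤ) : Prop := 4 * c.1 ^ 3 + 27 * c.2 ^ 2 ≠ 0 ∧
    (∀ p : ℕ, p.Prime → ¬ ((p : ℤ) ^ 4 ∣ c.1 ∧ (p : ℤ) ^ 6 ∣ c.2)) ∧
    (∃ g : ZMod 2 × ZMod 2 →+ (E c.1 c.2).toAffine.Point, Function.Injective g)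

lemma good : Pool.Agent.Y679.Cr.Good Pr := by
  classical
  refine ⟨fun c hc => ⟨?_, ?_⟩, fun H c hc => ?_, Pool.Agent.W672.FK.lowf⟩
  · exact Pool.Agent.Y679.Cr.isMin_of hc.1 hc.2.1
  · exact Pool.Agent.Y679.Cr.full_of (Pool.Agent.W307.RT.tors_iff.2 hc.2.2)
  · unfold Pool.Agent.W307.RT.Cv at hc
    obtain ⟨-, h1, -, -, h2, h3⟩ := mem_filter.1 hc
    exact ⟨h1, h2, Pool.Agent.W307.RT.tors_iff.1 h3⟩

lemma cond_eq (c : ℤ × ℤ) : Pool.Agent.Y679.Cr.cs c = Cond6 c := by
  unfold Pool.Agent.Y679.Cr.cs Pool.Agent.H925R.Szpiro.condS Cond6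
  rw [Pool.Agent.Y679.Cr.D_neg, Int.natAbs_neg]
  refine prod_congr rfl fun p _ => ?_
  by_cases h : (p : ℤ) ∣ c.1
  · rw [if_pos h, if_pos (Int.dvd_neg.2 h)]
  · rw [if_neg h, if_neg fun h' => h (Int.dvd_neg.1 h')]

lemma bdd {f : ℤ × ℤ → ℕ} (hf : ∀ c, 1 ≤ f c ∧ f c ≤ 2 ^ 8 * 3 ^ 5) : Pool.Agent.Y679.Cr.Bdd f :=
  fun c => ⟨(hf c).1, (hf c).2.trans (by norm_num)⟩

lemma FamC_eq (f : ℤ × ℤ → ℕ) (Z : ℕ) : Fam (CondLe f) Z = Pool.Agent.Y679.Cr.Gm Pr f Z := by
  ext c
  unfold Fam CondLe Pool.Agent.Y679.Cr.Gm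
  rw [Set.mem_ofPred_eq, Set.mem_ofPred_eq, cond_eq]
  exact ⟨fun h => ⟨⟨h.1, h.2.1, h.2.2.1⟩, h.2.2.2⟩, fun h => ⟨h.1.1, h.1.2.1, h.1.2.2, h.2⟩⟩

section fields

variable (K : Type) [Field K] [NumberField K]

/-- the curve `y² = x³ + A x + B` over `K` -/
def EK (A B : ℤ) : WeierstrassCurve K := ⟨0, 0, 0, (A : K), (B : K)⟩

open Classical in
/-- the rank of the group `A(K)` of the abelian variety `A = ∏ E_i` -/
noncomputable def rankK {g : ℕ} (c : Fin g → ℤ × ℤ) : ℕ :=
  Module.finrank ℤ ((i : Fin g) → (EK K (c i).1 (c i).2).toAffine.Point)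

variable {K}

/-- `V` is an equation with coefficients in the ring of integers of the curve `W` over `K` -/
def ModelOf (W : WeierstrassCurve K) (V : WeierstrassCurve (𝓞 K)) : Prop :=
  ∃ C : WeierstrassCurve.VariableChange K, C • W = V.map (algebraMap (𝓞 K) K)

/-- `a_P = N(P) + 1 - #V(𝓞 K / P)`, that is `N(P)` minus the number of the affine solutions of the
Weierstrass equation modulo `P`; for a prime of multiplicative reduction this is `1` (split) or `-1`
(non-split) -/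
noncomputable def aP (V : WeierstrassCurve (𝓞 K)) (P : Ideal (𝓞 K)) : ℤ :=
  (Nat.card (𝓞 K ⧸ P) : ℤ) - Nat.card {z : (𝓞 K ⧸ P) × (𝓞 K ⧸ P) //
    (V.map (Ideal.Quotient.mk P)).toAffine.Equation z.1 z.2}

/-- the quadratic twist by `d` of the curve `V` (the curve `y² = x³ + b₂ x² + 8 b₄ x + 16 b₆`) -/
def twist (V : WeierstrassCurve (𝓞 K)) (d : 𝓞 K) : WeierstrassCurve K :=
  ⟨0, (d : K) * (V.b₂ : K), 0, 8 * (d : K) ^ 2 * (V.b₄ : K), 16 * (d : K) ^ 3 * (V.b₆ : K)⟩

open Classical in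
/-- `w` is the local root number of the elliptic curve `W` at the prime `P`, for three types of
reduction at `P`: good reduction (`1`), multiplicative reduction (`-a_P`), and, for `P` prime to `2`,
the quadratic twist by an integer `d` of odd valuation `n` at `P` of a curve with good reduction at `P`
(`1` if `-1` is a square modulo `P` and `-1` otherwise) -/
def LocalRoot (W : WeierstrassCurve K) (P : Ideal (𝓞 K)) (w : ℤ) : Prop :=
  (∃ V : WeierstrassCurve (𝓞 K), ModelOf W V ∧ V.Δ ∉ P ∧ w = 1) ∨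
  (∃ V : WeierstrassCurve (𝓞 K), ModelOf W V ∧ V.Δ ∈ P ∧ V.c₄ ∉ P ∧ w = -aP V P) ∨
  ((2 : 𝓞 K) ∉ P ∧ ∃ (V : WeierstrassCurve (𝓞 K)) (d : 𝓞 K) (n : ℕ), Odd n ∧ d ∈ P ^ n ∧
    d ∉ P ^ (n + 1) ∧ (∃ C : WeierstrassCurve.VariableChange K, C • W = twist V d) ∧ V.Δ ∉ P ∧
    w = if IsSquare (-1 : 𝓞 K ⧸ P) then 1 else -1)

/-- `w` is the product over all the places `v` of `K` of the local root numbers of the product of the
curves `W i`: the local root number is `(-1) ^ g` at the infinite places, at `P` it is the product of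
the local root numbers `f P i` of the curves, and it is `1` outside the finite set `S` -/
def RootProduct {g : ℕ} (W : Fin g → WeierstrassCurve K) (w : ℤ) : Prop :=
  ∃ f : Ideal (𝓞 K) → Fin g → ℤ,
    (∀ P : Ideal (𝓞 K), P.IsPrime → P ≠ ⊥ → ∀ i, LocalRoot (W i) P (f P i)) ∧
    ∃ S : Finset (Ideal (𝓞 K)), (∀ P ∈ S, P.IsPrime ∧ P ≠ ⊥) ∧
      (∀ P : Ideal (𝓞 K), P.IsPrime → P ≠ ⊥ → P ∉ S → ∏ i, f P i = 1) ∧
      w = ((-1) ^ g) ^ Nat.card (InfinitePlace K) * ∏ P ∈ S, ∏ i, f P i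

end fields

/-- `K = ℚ(√d_1, ..., √d_m)` -/
def IsField {m : ℕ} (d : Fin m → ℕ) (K : Type) [Field K] [NumberField K] : Prop :=
  ∃ x : Fin m → K, (∀ i, x i ^ 2 = (d i : K)) ∧ IntermediateField.adjoin ℚ (Set.range x) = ⊤

/-- The tuples `(q_1 q'_1, ..., q_m q'_m)`, where the `q_i` and `q'_i` are `2 m` distinct primes, all
larger than `N`. -/
def Tuple {m : ℕ} (N : ℕ) (d : Fin m → ℕ) : Prop :=
  ∃ q q' : Fin m → ℕ, (∀ i, d i = q i * q' i) ∧ (∀ i, (q i).Prime ∧ N < q i) ∧
    (∀ i, (q' i).Prime ∧ N < q' i) ∧ Function.Injective q ∧ Function.Injective q' ∧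
    ∀ i j, q i ≠ q' j

/-- `Gal(L/ℚ)` has a normal subgroup of odd order and of index a power of two (a normal
2-complement); examples are all the nilpotent groups, in particular the 2-groups, and all the groups
with cyclic Sylow 2-subgroups -/
def TwoComplement (L : Type) [Field L] [NumberField L] : Prop :=
  ∃ (N : Subgroup (L ≃ₐ[ℚ] L)) (n : ℕ), N.Normal ∧ Odd (Nat.card N) ∧ N.index = 2 ^ n

/-- all the quadratic fields in `L` embed in `M` -/
def QuadraticFieldsIn (M L : Type) [Field M] [Field L] [NumberField L] : Prop :=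
  ∀ F : IntermediateField ℚ L, Module.finrank ℚ F = 2 → Nonempty (F →+* M)

/-- `L` contains two different quadratic subfields of `ℚ(√d_1, ..., √d_m)`: for two different nonempty
sets `S`, `T` of indices the product of the `d_i` over `S` and that over `T` are squares in `L` (for
the tuples in `Tuple` these are the square roots of two non-squares in different quadratic fields) -/
def TwoQuadraticFields {m : ℕ} (d : Fin m → ℕ) (L : Type) [Field L] : Prop :=
  ∃ S T : Finset (Fin m), S.Nonempty ∧ T.Nonempty ∧ S ≠ T ∧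
    IsSquare ((∏ i ∈ S, d i : ℕ) : L) ∧ IsSquare ((∏ i ∈ T, d i : ℕ) : L)

/-- The `g`-tuples of curves such that for the field `M = ℚ(√d_1, ..., √d_m)` and `A = ∏ E_i` the
rank of `A(M)` is zero and, for every number field `L` which is Galois over `ℚ` and contains two
different quadratic subfields of `M`, the product of the local root numbers of `A` over `L` is `1`
and, if `Gal(L/ℚ)` has a normal 2-complement and all the quadratic fields in `L` embed in `M`, the
rank of `A(L)` is even. -/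
def ParityGalois {m : ℕ} (g : ℕ) (d : Fin m → ℕ) : Set (Fin g → ℤ × ℤ) :=
  {c | ∀ (M L : Type) [Field M] [NumberField M] [Field L] [NumberField L] [IsGalois ℚ L],
    IsField d M → rankK M c = 0 ∧ (TwoQuadraticFields d L →
      RootProduct (fun i => EK L (c i).1 (c i).2) 1 ∧
      (TwoComplement L → QuadraticFieldsIn M L → Even (rankK L c)))}

lemma twoQ_of {m : ℕ} {d : Fin m → ℕ} {L : Type} [Field L] (h : TwoQuadraticFields d L) :
    Pool.Agent.X293.GY.TwoQ (fun j => (d j : ℤ)) L := by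
  obtain ⟨S, T, hS, hT, hST, ⟨y, hy⟩, z, hz⟩ := h
  refine ⟨S, T, hS, hT, hST, ⟨y, ?_⟩, z, ?_⟩
  · rw [sq, ← hy]
    push_cast
    rfl
  · rw [sq, ← hz]
    push_cast
    rfl

lemma gen_of {m : ℕ} {d : Fin m → ℕ} {K : Type} [Field K] [NumberField K] (h : IsField d K) :
    Pool.Agent.TH841.NF.Gen K (fun j => (d j : ℤ)) := by
  obtain ⟨x, hx, hg⟩ := h
  exact ⟨x, fun i => by rw [hx i, Int.cast_natCast], hg⟩

lemma rank_sum (K : Type) [Field K] [NumberField K] {g : ℕ} {c : Fin g → ℤ × ℤ}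
    (hD : ∀ i, 4 * (c i).1 ^ 3 + 27 * (c i).2 ^ 2 ≠ 0)
    (hT : ∀ i, ∃ f : ZMod 2 × ZMod 2 →+ (E (c i).1 (c i).2).toAffine.Point, Function.Injective f) :
    rankK K c = ∑ i, Pool.Agent.X293.PT.rkE K (c i) := by
  classical
  have hfinK : ∀ i, Module.Finite ℤ (EK K (c i).1 (c i).2).toAffine.Point := fun i =>
    Pool.Agent.X293.PT.fin_EQ K (hD i) (Pool.Agent.W307.RT.tors_iff.2 (hT i))
  exact Pool.Agent.Y667.PA.rk_pi g (fun i => (EK K (c i).1 (c i).2).toAffine.Point)

lemma good_of {m g : ℕ} {d : Fin m → ℕ} {c : Fin g → ℤ × ℤ}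
    (hD : ∀ i, 4 * (c i).1 ^ 3 + 27 * (c i).2 ^ 2 ≠ 0)
    (hT : ∀ i, ∃ f : ZMod 2 × ZMod 2 →+ (E (c i).1 (c i).2).toAffine.Point, Function.Injective f)
    (h : ∀ i, Pool.Agent.X293.GY.QG d (c i)) : c ∈ ParityGalois g d := by
  classical
  intro M L _ _ _ _ _ hM
  have hT' := fun i => Pool.Agent.W307.RT.tors_iff.2 (hT i)
  have hE := fun i => h i (hD i) (hT' i) M L (gen_of hM)
  refine ⟨?_, fun hL => ⟨?_, ?_⟩⟩
  · rw [rank_sum M hD hT]
    exact sum_eq_zero fun i _ => (hE i).1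
  · have h1 := Pool.Agent.Y667.OG.prodRootK (fun i => EK L (c i).1 (c i).2)
      (fun _ => (1 : ℤ)) fun i => ((hE i).2 (twoQ_of hL)).1
    rw [prod_const_one] at h1
    exact h1
  · rintro ⟨N, n, hN1, hN2, hN3⟩ hq
    rw [rank_sum L hD hT]
    exact Finset.even_sum _ fun i _ => ((hE i).2 (twoQ_of hL)).2 N hN1 hN2 n hN3 hq

lemma tup8 {m N : ℕ} {d : Fin m → ℕ} (h : Pool.Agent.Y667.QK.R.E.Tup8 m N d) : Tuple N d := by
  obtain ⟨q, q', h1, h2, h3, h4⟩ := h
  exact ⟨q, q', h1, fun i => ⟨(h2 i).1, (h2 i).2.1⟩, fun i => ⟨(h3 i).1, (h3 i).2.1⟩, h4⟩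

lemma deg_of {m N : ℕ} {d : Fin m → ℕ} (hd : Tuple N d) (K : Type) [Field K] [NumberField K]
    (hK : IsField d K) : Module.finrank ℚ K = 2 ^ m := by
  obtain ⟨q, q', h1, h2, h3, h4, h5, h6⟩ := hd
  refine Pool.Agent.Y388.QK.DEG m q q' (fun j => (h2 j).1) (fun j => (h3 j).1) h4 h5 h6 K ?_
  have := gen_of hK
  have e : (fun j => ((q j * q' j : ℕ) : ℤ)) = fun j => (d j : ℤ) := by
    funext j
    rw [h1 j]
  rw [e]
  exact this

/-- one of finitely many -/
lemma pack {ι : Type} (L : Finset ι) (p : ι → ℕ → ℝ) (δ : ℝ)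
    (h : ∀ᶠ Z : ℕ in atTop, ∃ d ∈ L, δ ≤ p d Z) : ∃ d ∈ L, ∃ᶠ Z : ℕ in atTop, δ ≤ p d Z := by
  by_contra hcon
  push Not at hcon
  have h1 : ∀ᶠ Z : ℕ in atTop, ∀ d ∈ L, ¬ δ ≤ p d Z := by
    rw [Filter.eventually_all_finset]
    intro d hd
    exact (hcon d hd).mono fun Z hZ => not_le.2 hZ
  obtain ⟨Z, hZ1, hZ2⟩ := (h.and h1).exists
  obtain ⟨d, hd, hle⟩ := hZ1
  exact hZ2 d hd hle

lemma pi_eq {α : Type} [DecidableEq α] (g : ℕ) (F : Finset α) :
    {c : Fin g → α | ∀ i, c i ∈ (F : Set α)} =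
      ((Fintype.piFinset fun _ : Fin g => F : Finset (Fin g → α)) : Set (Fin g → α)) := by
  ext c
  rw [mem_coe, Fintype.mem_piFinset]
  exact Iff.rfl

lemma pi_ncard {α : Type} [DecidableEq α] (g : ℕ) (F : Finset α) :
    {c : Fin g → α | ∀ i, c i ∈ (F : Set α)}.ncard = F.card ^ g := by
  rw [pi_eq, Set.ncard_coe_finset, Fintype.card_piFinset_const]

/-- from curves to tuples -/
lemma tuples_of {I : ℤ × ℤ → ℕ → Prop} {g Z : ℕ} {δ : ℝ} (hδ : 0 ≤ δ) (F : Finset (ℤ × ℤ))
    (hF : Fam I Z = (F : Set (ℤ × ℤ))) (P : ℤ × ℤ → Prop) [DecidablePred P]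
    (h1 : 1 ≤ F.card) (h : δ * (F.card : ℝ) ≤ ((F.filter P).card : ℝ)) (S : Set (Fin g → ℤ × ℤ))
    (hS : ∀ c : Fin g → ℤ × ℤ, (∀ i, c i ∈ Fam I Z ∧ P (c i)) → c ∈ S) :
    δ ^ g ≤ proportion I g S Z := by
  classical
  have e1 : Tuples I g Z = {c : Fin g → ℤ × ℤ | ∀ i, c i ∈ (F : Set (ℤ × ℤ))} := by
    unfold Tuples
    rw [hF]
  have h2 : (0 : ℝ) < (F.card : ℝ) := by exact_mod_cast h1
  unfold proportion
  rw [e1, pi_ncard, Nat.cast_pow, le_div_iff₀ (by positivity), ← mul_pow]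
  calc (δ * (F.card : ℝ)) ^ g ≤ (((F.filter P).card : ℝ)) ^ g :=
        pow_le_pow_left₀ (by positivity) h g
    _ = (({c : Fin g → ℤ × ℤ | ∀ i, c i ∈ ((F.filter P : Finset (ℤ × ℤ)) : Set (ℤ × ℤ))}.ncard : ℕ)
        : ℝ) := by rw [pi_ncard, Nat.cast_pow]
    _ ≤ _ := by
        refine Nat.cast_le.2 (Set.ncard_le_ncard (fun c hc => ?_) (Set.Finite.inter_of_left (by
          rw [pi_eq]
          exact finite_toSet _) _))
        have h3 : ∀ i, c i ∈ F ∧ P (c i) := fun i => by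
          have := hc i
          rw [mem_coe, mem_filter] at this
          exact this
        refine ⟨fun i => mem_coe.2 (h3 i).1, hS c fun i => ⟨?_, (h3 i).2⟩⟩
        rw [hF]
        exact mem_coe.2 (h3 i).1

/-- **Theorem.** Let `g ≥ 0`. For each of the three orderings (naive height, minimal discriminant,
conductor) of the elliptic curves over `ℚ` with full rational 2-torsion there are finitely many tuples
of `g` curves of size at most `Z`, the number of the curves tends to infinity with `Z`, and for all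
`m`, `N` there are a finite list `T` of tuples of products of two primes larger than `N`, the `2 m`
primes distinct, so that the fields `M = ℚ(√d_1, ..., √d_m)` have degree `2 ^ m`, and `δ > 0` such
that for all large `Z` for some `d` in `T` at least a proportion `δ` of the `g`-tuples of curves of
size at most `Z` belongs to `ParityGalois g d`: with `A = ∏ E_i`, `rk A(M) = 0`, `w(A/L) = 1` for
every Galois field `L` containing two different quadratic subfields of `M`, and `rk A(L)` is even if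
in addition `Gal(L/ℚ)` has a normal 2-complement and the quadratic fields in `L` embed in `M`; and one
`d` in `T` has this property for arbitrarily large `Z`. -/
theorem result (g : ℕ) : ∀ I : ℤ × ℤ → ℕ → Prop, IsOrdering I →
    (∀ Z : ℕ, (Tuples I g Z).Finite) ∧ Tendsto (fun Z : ℕ => (Fam I Z).ncard) atTop atTop ∧
    ∀ m N : ℕ, ∃ T : Finset (Fin m → ℕ), (∀ d ∈ T, Tuple N d ∧
        ∀ (M : Type) [Field M] [NumberField M], IsField d M → Module.finrank ℚ M = 2 ^ m) ∧
      ∃ δ : ℝ, 0 < δ ∧ (∀ᶠ Z : ℕ in atTop, ∃ d ∈ T, δ ≤ proportion I g (ParityGalois g d) Z) ∧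
        ∃ d ∈ T, ∃ᶠ Z : ℕ in atTop, δ ≤ proportion I g (ParityGalois g d) Z := by
  classical
  intro I hI
  have hsub : ∀ (Z m N : ℕ), ∀ d : Fin m → ℕ, Pool.Agent.Y667.QK.R.E.Tup8 m N d →
      ∀ c : Fin g → ℤ × ℤ, (∀ i, c i ∈ Fam I Z ∧
        Pool.Agent.X293.GY.TwG (fun j => (d j : ℤ)) (c i)) → c ∈ ParityGalois g d :=
    fun Z m N d hd c hc => good_of (fun i => (hc i).1.1) (fun i => (hc i).1.2.2.1)
      fun i => Pool.Agent.X293.GY.qg_of_tw hd (hc i).2
  rcases hI with rfl | rfl | ⟨f, hf, rfl⟩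
  · refine ⟨fun Z => ?_, tendstoH, ?_⟩
    · unfold Tuples
      rw [FamH_eq, pi_eq]
      exact finite_toSet _
    · intro m N
      obtain ⟨L, hL, δ, hδ, H0, h⟩ := Pool.Agent.X293.GY.mainH m N
      have key : ∀ᶠ Z : ℕ in atTop, ∃ d ∈ L,
          δ ^ g ≤ proportion HeightLe g (ParityGalois g d) Z := by
        filter_upwards [eventually_ge_atTop H0, tendstoH.eventually_ge_atTop 1] with H hH hH1
        obtain ⟨d, hd, hle⟩ := h H hH
        refine ⟨d, hd, ?_⟩
        have e1 : (Fam HeightLe H).ncard = (Pool.Agent.W307.RT.Cv 2 H).card := by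
          rw [FamH_eq, Set.ncard_coe_finset]
        rw [e1] at hH1
        exact tuples_of hδ.le _ (FamH_eq H) _ hH1 hle _ (hsub H m N d (hL d hd))
      exact ⟨L, fun d hd => ⟨tup8 (hL d hd), fun M _ _ hM => deg_of (tup8 (hL d hd)) M hM⟩, δ ^ g,
        pow_pos hδ g, key, pack L (fun d Z => proportion HeightLe g (ParityGalois g d) Z) _ key⟩
  · refine ⟨fun Z => ?_, tendstoD, ?_⟩
    · unfold Tuples
      rw [FamD_eq, pi_eq]
      exact finite_toSet _
    · intro m N
      obtain ⟨L, hL, δ, hδ, H0, h⟩ := Pool.Agent.X293.GY.mainD m N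
      have key : ∀ᶠ Z : ℕ in atTop, ∃ d ∈ L,
          δ ^ g ≤ proportion DiscLe g (ParityGalois g d) Z := by
        filter_upwards [eventually_ge_atTop H0, tendstoD.eventually_ge_atTop 1] with H hH hH1
        obtain ⟨d, hd, hle⟩ := h H hH
        refine ⟨d, hd, ?_⟩
        have e1 : (Fam DiscLe H).ncard = (Pool.Agent.TH344.DS.Dv H).card := by
          rw [FamD_eq, Set.ncard_coe_finset]
        rw [e1] at hH1
        exact tuples_of hδ.le _ (FamD_eq H) _ hH1 hle _ (hsub H m N d (hL d hd))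
      exact ⟨L, fun d hd => ⟨tup8 (hL d hd), fun M _ _ hM => deg_of (tup8 (hL d hd)) M hM⟩, δ ^ g,
        pow_pos hδ g, key, pack L (fun d Z => proportion DiscLe g (ParityGalois g d) Z) _ key⟩
  · have hfin : ∀ Z, (Fam (CondLe f) Z).Finite := fun Z => by
      rw [FamC_eq]
      exact Pool.Agent.Y679.Cr.Gm_fin good (bdd hf) Z
    have htend : Tendsto (fun Z : ℕ => (Fam (CondLe f) Z).ncard) atTop atTop := by
      simp only [FamC_eq]
      exact Pool.Agent.Y679.Cr.Gm_tendsto good (bdd hf)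
    refine ⟨fun Z => ?_, htend, ?_⟩
    · unfold Tuples
      have e0 : Fam (CondLe f) Z = ((hfin Z).toFinset : Set (ℤ × ℤ)) := by
        rw [Set.Finite.coe_toFinset]
      rw [e0, pi_eq]
      exact finite_toSet _
    · intro m N
      obtain ⟨L, hL, δ0, hδ0, H0, h0⟩ := Pool.Agent.X293.GY.mainH m N
      obtain ⟨δ, hδ, h⟩ := Pool.Agent.X293.CO.cond_list L
        (fun d => Pool.Agent.X293.GY.TwG (fun j => (d j : ℤ))) good ⟨δ0, hδ0, H0, h0⟩
      have key : ∀ᶠ Z : ℕ in atTop, ∃ d ∈ L,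
          δ ^ g ≤ proportion (CondLe f) g (ParityGalois g d) Z := by
        filter_upwards [h f (bdd hf), htend.eventually_ge_atTop 1] with Z hZ hZ1
        obtain ⟨d, hd, hle⟩ := hZ
        refine ⟨d, hd, ?_⟩
        have e0 : Fam (CondLe f) Z = ((hfin Z).toFinset : Set (ℤ × ℤ)) := by
          rw [Set.Finite.coe_toFinset]
        have e1 : (Fam (CondLe f) Z).ncard = (hfin Z).toFinset.card := by
          rw [← Set.ncard_coe_finset, ← e0]
        rw [e1] at hZ1
        have h1 : (0 : ℝ) < ((hfin Z).toFinset.card : ℝ) := by exact_mod_cast hZ1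
        refine tuples_of hδ.le _ e0 (Pool.Agent.X293.GY.TwG (fun j => (d j : ℤ))) hZ1 ?_ _
          (hsub Z m N d (hL d hd))
        rw [← FamC_eq, e1, le_div_iff₀ h1] at hle
        refine hle.trans (Nat.cast_le.2 ?_)
        rw [← Set.ncard_coe_finset]
        refine Set.ncard_le_ncard ?_ (finite_toSet _)
        rintro k ⟨h2, h3⟩
        rw [mem_coe, mem_filter, Set.Finite.mem_toFinset]
        exact ⟨h2, h3⟩
      exact ⟨L, fun d hd => ⟨tup8 (hL d hd), fun M _ _ hM => deg_of (tup8 (hL d hd)) M hM⟩, δ ^ g,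
        pow_pos hδ g, key, pack L (fun d Z => proportion (CondLe f) g (ParityGalois g d) Z) _ key⟩

end Pool.Agent.Results.MP_ac3185_nt.ProductsGaloisFields
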