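import Mathlib
import Pool.Agent.X298.PA.AVMain

/-!
# The root number of a semistable abelian variety from its places of good reduction

Let `K` be a number field with `r₂` complex places, `A / K` a semistable abelian variety of dimension `g`, and `S` a finite set of
places which contains the places of bad reduction. Let `c_v(k)` be the trace of the `k`-th power of the Frobenius at `v ∉ S` on
the Tate module (an integer; the `c_v(k)` are given by the numbers of points of `A` modulo `v`). Suppose that `A` satisfies the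
conjecture of Hasse and Weil: the completed `L`-function is entire and has a functional equation `s ↔ 2 - s` (no condition on its
sign). For real `γ > π / 2` and `T > 0` consider the absolutely convergent real series **over the places outside of `S` only**

  `R_γ(T) = ∑_{v ∉ S} ∑_{k ≥ 1} c_v(k) cos(γ k log q_v / T) / (k Γ(1 + k log q_v / T))`.

The product of all the local root numbers is `w(A/K) = ∏_{v | ∞} (-1)^g ∏_{v ∈ S} (-1)^{n_v}`, `n_v` the split toric rank at `v`
(semistable case). It is shown, with `M = g [K : ℚ] + ∑_{v ∈ S} n_v`: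

* `R_γ(T) = r - M (log T - Re Λ(γ)) + O(1/T)` for a real number `r`, so `(R_γ(2T) - R_γ(T)) / log 2 = - M + O(1/T)`;
* `w(A/K) = (-1)^(M + g r₂)`: **the bad places and the infinite places are seen by the good ones**;
* for every integer `ρ ≥ 0` (for instance the rank of `A(K)`), the function
  `cos (π ((R_γ(2T) - R_γ(T)) / log 2 + ρ + g r₂))` converges to `(-1)^ρ w(A/K)` for `T → ∞`; so **the parity conjecture
  `(-1)^{rk A(K)} = w(A/K)` holds for `A` if and only if it converges to `1` for `ρ = rk A(K)`, and if and only if it is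
  positive for arbitrarily large `T`**.

Proof: `M` is the order at `s = 0` of the incomplete `L`-function `L_S(A, s)`: `g [K : ℚ]` from the poles of the Gamma factors and
one for each Frobenius eigenvalue `1` on the toric parts, and the rotated law of `Pool.Agent.X298.ST` applies at `s = 0`, on the
left of the critical strip, without hypotheses on the zeros.
-/

set_option autoImplicit false

open Filter Topology Complex
open IsDedekindDomain NumberField

namespace Pool.Agent.Results.MP_ac3185_nt.SemistableSignGoodPlaces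

open Pool.Agent.X298.ST (Lambda)
open Pool.Agent.X298.PA Pool.Agent.X298.PA.AV

/-- **The root number of a semistable abelian variety from the places of good reduction.** -/
theorem result {K : Type} [Field K] [NumberField K] (S : Finset (HeightOneSpectrum (𝓞 K))) (g : ℕ) (A : Frob S g)
    (Λ : ℂ → ℂ) (h : HasseWeil A Λ) (M : ℕ) (hM : M = g * Module.finrank ℚ K + ∑ v : S, splitRank A v)
    (γ : ℝ) (hγ : Real.pi / 2 < γ) :
    (∀ T : ℝ, 0 < T → Summable fun x => |rTerm A γ T x|) ∧
    (∃ r : ℝ, (fun T : ℝ => rSum A γ T - (r - M * (Real.log T - (Lambda γ).re))) =O[atTop] (fun T : ℝ => 1 / T)) ∧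
    ((fun T : ℝ => (rSum A γ (2 * T) - rSum A γ T) / Real.log 2 + M) =O[atTop] (fun T : ℝ => 1 / T)) ∧
    rootNumber A = (-1) ^ (M + g * InfinitePlace.nrComplexPlaces K) ∧
    ∀ ρ : ℕ,
      Tendsto (fun T : ℝ => Real.cos (Real.pi * ((rSum A γ (2 * T) - rSum A γ T) / Real.log 2 +
        (ρ + g * InfinitePlace.nrComplexPlaces K)))) atTop (𝓝 ((-1) ^ ρ * rootNumber A)) ∧
      ((-1) ^ ρ = rootNumber A ↔
        Tendsto (fun T : ℝ => Real.cos (Real.pi * ((rSum A γ (2 * T) - rSum A γ T) / Real.log 2 +
          (ρ + g * InfinitePlace.nrComplexPlaces K)))) atTop (𝓝 1)) ∧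
      ((-1) ^ ρ = rootNumber A ↔
        ∃ᶠ T : ℝ in atTop, 0 < Real.cos (Real.pi * ((rSum A γ (2 * T) - rSum A γ T) / Real.log 2 +
          (ρ + g * InfinitePlace.nrComplexPlaces K)))) := by
  have hMM : M = MM A := by
    rw [hM]
    unfold MM
    ring
  obtain ⟨D, hD1, hD2, hD3⟩ := main h
  obtain ⟨r, -, hr⟩ := law_real (pure A) hD1 hD2 hD3 hγ
  have hr' : (fun T : ℝ => rSum A γ T - (r - ((M : ℕ) : ℤ) * (Real.log T - (Lambda γ).re))) =O[atTop]
      (fun T : ℝ => 1 / T) := by
    rw [hMM]
    exact hr
  have hdb := doubling hr'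
  have hroot : rootNumber A = (-1) ^ (M + g * InfinitePlace.nrComplexPlaces K) := by
    rw [hMM]
    exact root_eq A
  refine ⟨fun T hT => tP_summable (pure A) γ hT, ⟨r, by simpa using hr'⟩, by simpa using hdb, hroot, fun ρ => ?_⟩
  set k : ℕ := g * InfinitePlace.nrComplexPlaces K with hk
  have hlim : Tendsto (fun T : ℝ => Real.cos (Real.pi * ((rSum A γ (2 * T) - rSum A γ T) / Real.log 2 +
        (ρ + k)))) atTop (𝓝 ((-1) ^ ρ * rootNumber A)) := by
    have h1 := cos_lim hdb ((ρ + k : ℕ) : ℤ)
    have e1 : ((-1 : ℝ) ^ (((M : ℕ) : ℤ) + ((ρ + k : ℕ) : ℤ))) = (-1) ^ ρ * (rootNumber A : ℝ) := by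
      rw [hroot, ← Nat.cast_add, zpow_natCast]
      push_cast
      rw [← pow_add]
      congr 1
      ring
    rw [e1] at h1
    refine h1.congr fun T => ?_
    push_cast
    rfl
  have e2 : ((g : ℝ) * (InfinitePlace.nrComplexPlaces K : ℝ)) = (k : ℝ) := by
    rw [hk]
    push_cast
    rfl
  rw [e2]
  have hpm : rootNumber A = 1 ∨ rootNumber A = -1 := by
    rw [hroot]
    exact neg_one_pow_eq_or ℤ _
  have hval : (-1) ^ ρ = rootNumber A ∨ (-1) ^ ρ = -rootNumber A := by
    rcases neg_one_pow_eq_or ℤ ρ with h1 | h1 <;> rcases hpm with h2 | h2 <;> rw [h1, h2] <;> simp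
  have hsq : (rootNumber A : ℝ) * rootNumber A = 1 := by
    rcases hpm with h2 | h2 <;> rw [h2] <;> norm_num
  have key1 : (-1) ^ ρ = rootNumber A → ((-1 : ℝ) ^ ρ * rootNumber A) = 1 := by
    intro h1
    have h2 : ((-1 : ℝ) ^ ρ) = rootNumber A := by exact_mod_cast h1
    rw [h2, hsq]
  have key2 : ¬ ((-1) ^ ρ = rootNumber A) → ((-1 : ℝ) ^ ρ * rootNumber A) = -1 := by
    intro h1
    have h3 := hval.resolve_left h1
    have h2 : ((-1 : ℝ) ^ ρ) = -rootNumber A := by exact_mod_cast h3
    rw [h2, neg_mul, hsq]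
  refine ⟨hlim, ⟨fun h1 => ?_, fun h1 => ?_⟩, ⟨fun h1 => ?_, fun h1 => ?_⟩⟩
  · rw [key1 h1] at hlim
    exact hlim
  · by_contra h2
    rw [key2 h2] at hlim
    have := tendsto_nhds_unique hlim h1
    norm_num at this
  · rw [key1 h1] at hlim
    exact (hlim.eventually (eventually_gt_nhds (by norm_num : (0 : ℝ) < 1))).frequently
  · by_contra h2
    rw [key2 h2] at hlim
    have h3 := hlim.eventually (eventually_lt_nhds (by norm_num : (-1 : ℝ) < 0))
    obtain ⟨T, h4, h5⟩ := (h1.and_eventually h3).exists
    linarith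

end Pool.Agent.Results.MP_ac3185_nt.SemistableSignGoodPlaces
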